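import Pool.Agent.Lib.MP_b9f640_co.Family

/-!
Every path with at most five vertices lies on a Hamiltonian cycle.
-/

namespace Pool.Agent.Lib.MP_b9f640_co

open SimpleGraph

def adjIn : List (Bool × ℤ) → (Bool × ℤ) → (Bool × ℤ) → Bool
  | a :: b :: t, x, y => (decide (a = x) && decide (b = y)) || (decide (a = y) && decide (b = x))
      || adjIn (b :: t) x y
  | [_], _, _ => false
  | [], _, _ => false

lemma adjIn_pair : ∀ (l : List (Bool × ℤ)) (x y : Bool × ℤ), adjIn l x y = true →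
    [x, y] <:+: l ∨ [y, x] <:+: l
  | [], _, _, h => by simp [adjIn] at h
  | [_], _, _, h => by simp [adjIn] at h
  | a :: b :: t, x, y, h => by
    rw [adjIn, Bool.or_eq_true, Bool.or_eq_true, Bool.and_eq_true, Bool.and_eq_true] at h
    simp only [decide_eq_true_eq] at h
    rcases h with (⟨rfl, rfl⟩ | ⟨rfl, rfl⟩) | h
    · exact Or.inl ⟨[], t, by simp⟩
    · exact Or.inr ⟨[], t, by simp⟩
    · rcases adjIn_pair (b :: t) x y h with h | h
      · exact Or.inl (h.trans (List.suffix_cons _ _).isInfix)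
      · exact Or.inr (h.trans (List.suffix_cons _ _).isInfix)

def segs (j : Fin 3) : List (List (Bool × ℤ)) :=
  match j with
  | 0 => [X1]
  | 1 => [X2]
  | 2 => [A3, X3.reverse ++ Y3]

def cov (j : Fin 3) (x y : Bool × ℤ) : Bool := (segs j).any (fun l => adjIn l x y)

/-- the reverse step -/
def rev (s : Fin 3) : Fin 3 :=
  match s with
  | 0 => 1
  | 1 => 0
  | 2 => 2

def cov4 (b : Bool) (s1 s2 s3 s4 : Fin 3) (j : Fin 3) (c : ℤ) : Bool :=
  cov j (b, c) (nbZ (b, c) s1) &&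
  (cov j (nbZ (b, c) s1) (nbZ (nbZ (b, c) s1) s2) &&
  (cov j (nbZ (nbZ (b, c) s1) s2) (nbZ (nbZ (nbZ (b, c) s1) s2) s3) &&
  cov j (nbZ (nbZ (nbZ (b, c) s1) s2) s3) (nbZ (nbZ (nbZ (nbZ (b, c) s1) s2) s3) s4)))

set_option maxRecDepth 100000 in
lemma coverage : ∀ (b : Bool) (s1 s2 s3 s4 : Fin 3), s2 ≠ rev s1 → s3 ≠ rev s2 → s4 ≠ rev s3 →
    ∃ (j : Fin 3) (c : Fin 10), cov4 b s1 s2 s3 s4 j (c.val : ℤ) = true := by
  decide +kernel

lemma family (m : ℕ) (j : Fin 3) (a : ZMod (6 * m + 10)) :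
    ∃ (v : Bool × ZMod (6 * m + 10)) (c : (GP (6 * m + 10)).Walk v v), c.IsHamiltonianCycle ∧
      ∀ x y, cov j x y = true → s(psi _ a x, psi _ a y) ∈ c.edges := by
  fin_cases j
  · obtain ⟨v, c, hc, hce⟩ := family_one X1 (by decide) rfl rfl rfl base1_full m a
    refine ⟨v, c, hc, ?_⟩
    intro x y h
    simp only [cov, segs, List.any_cons, List.any_nil, Bool.or_false] at h
    rcases adjIn_pair _ _ _ h with h | h
    · exact hce x y h
    · rw [Sym2.eq_swap]; exact hce y x h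
  · obtain ⟨v, c, hc, hce⟩ := family_one X2 (by decide) rfl rfl rfl base2_full m a
    refine ⟨v, c, hc, ?_⟩
    intro x y h
    simp only [cov, segs, List.any_cons, List.any_nil, Bool.or_false] at h
    rcases adjIn_pair _ _ _ h with h | h
    · exact hce x y h
    · rw [Sym2.eq_swap]; exact hce y x h
  · obtain ⟨v, c, hc, hce⟩ := family_three m a
    refine ⟨v, c, hc, ?_⟩
    intro x y h
    simp only [cov, segs, List.any_cons, List.any_nil, Bool.or_false, Bool.or_eq_true] at h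
    rcases h with h | h
    · rcases adjIn_pair _ _ _ h with h | h
      · exact hce x y (Or.inl h)
      · rw [Sym2.eq_swap]; exact hce y x (Or.inl h)
    · rcases adjIn_pair _ _ _ h with h | h
      · exact hce x y (Or.inr h)
      · rw [Sym2.eq_swap]; exact hce y x (Or.inr h)

lemma cover4 (m : ℕ) (x : Bool × ZMod (6 * m + 10)) (s1 s2 s3 s4 : Fin 3) (h2 : s2 ≠ rev s1)
    (h3 : s3 ≠ rev s2) (h4 : s4 ≠ rev s3) :
    ∃ (v : Bool × ZMod (6 * m + 10)) (c : (GP (6 * m + 10)).Walk v v), c.IsHamiltonianCycle ∧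
      s(x, nb x s1) ∈ c.edges ∧ s(nb x s1, nb (nb x s1) s2) ∈ c.edges ∧
      s(nb (nb x s1) s2, nb (nb (nb x s1) s2) s3) ∈ c.edges ∧
      s(nb (nb (nb x s1) s2) s3, nb (nb (nb (nb x s1) s2) s3) s4) ∈ c.edges := by
  obtain ⟨j, c0, hcov⟩ := coverage x.1 s1 s2 s3 s4 h2 h3 h4
  obtain ⟨v, c, hc, hce⟩ := family m j (x.2 - ((c0.val : ℤ) : ZMod (6 * m + 10)))
  refine ⟨v, c, hc, ?_⟩
  have hx : x = psi (6 * m + 10) (x.2 - ((c0.val : ℤ) : ZMod (6 * m + 10))) (x.1, (c0.val : ℤ)) :=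
    exists_psi 0 x _
  unfold cov4 at hcov
  simp only [Bool.and_eq_true] at hcov
  obtain ⟨k1, k2, k3, k4⟩ := hcov
  have g1 := hce _ _ k1
  have g2 := hce _ _ k2
  have g3 := hce _ _ k3
  have g4 := hce _ _ k4
  simp only [psi_nb] at g1 g2 g3 g4
  rw [← hx] at g1 g2 g3 g4
  exact ⟨g1, g2, g3, g4⟩

lemma nb_rev {n : ℕ} (x : Bool × ZMod n) (s : Fin 3) : nb (nb x s) (rev s) = x := by
  obtain ⟨b, i⟩ := x
  cases b <;> fin_cases s <;> simp [nb, rev]

lemma exists_next (s : Fin 3) : ∃ t : Fin 3, t ≠ rev s := by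
  fin_cases s
  · exact ⟨0, by decide⟩
  · exact ⟨1, by decide⟩
  · exact ⟨0, by decide⟩

lemma nonback {n : ℕ} (x : Bool × ZMod n) (s t : Fin 3) (h : nb (nb x s) t ≠ x) : t ≠ rev s := by
  rintro rfl
  exact h (nb_rev x s)

theorem pathsExtend (m : ℕ) : PathsExtend (GP (6 * m + 10)) 5 := by
  intro i _ hi5 u v p hp hlen
  have hn : 5 ≤ 6 * m + 10 := by omega
  have hplen : p.length ≤ 4 := by omega
  clear hlen hi5
  -- it is enough to have the edges
  suffices h : ∃ (a : Bool × ZMod (6 * m + 10)) (c : (GP (6 * m + 10)).Walk a a),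
      c.IsHamiltonianCycle ∧ ∀ e ∈ p.edges, e ∈ c.edges by
    obtain ⟨a, c, hc, he⟩ := h
    exact ⟨a, c, hc, fun x _ => hc.mem_support x, he⟩
  rw [Walk.isPath_def] at hp
  cases p with
  | nil =>
    obtain ⟨a, c, hc, _⟩ := cover4 m u 0 0 0 0 (by decide) (by decide) (by decide)
    exact ⟨a, c, hc, by simp⟩
  | cons h1 p1 =>
    obtain ⟨s1, rfl⟩ := (adj_iff hn _ _).mp h1
    cases p1 with
    | nil =>
      obtain ⟨s2, h2⟩ := exists_next s1
      obtain ⟨s3, h3⟩ := exists_next s2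
      obtain ⟨s4, h4⟩ := exists_next s3
      obtain ⟨a, c, hc, g1, _⟩ := cover4 m u s1 s2 s3 s4 h2 h3 h4
      refine ⟨a, c, hc, ?_⟩
      simpa using g1
    | cons h2 p2 =>
      obtain ⟨s2, rfl⟩ := (adj_iff hn _ _).mp h2
      cases p2 with
      | nil =>
        simp only [Walk.support_cons, Walk.support_nil, List.nodup_cons, List.mem_cons,
          not_or] at hp
        have n2 := nonback u s1 s2 (fun h => hp.1.2.1 h.symm)
        obtain ⟨s3, h3⟩ := exists_next s2
        obtain ⟨s4, h4⟩ := exists_next s3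
        obtain ⟨a, c, hc, g1, g2, _⟩ := cover4 m u s1 s2 s3 s4 n2 h3 h4
        refine ⟨a, c, hc, ?_⟩
        simpa using ⟨g1, g2⟩
      | cons h3 p3 =>
        obtain ⟨s3, rfl⟩ := (adj_iff hn _ _).mp h3
        cases p3 with
        | nil =>
          simp only [Walk.support_cons, Walk.support_nil, List.nodup_cons, List.mem_cons,
            not_or] at hp
          have n2 := nonback u s1 s2 (fun h => hp.1.2.1 h.symm)
          have n3 := nonback _ s2 s3 (fun h => hp.2.1.2.1 h.symm)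
          obtain ⟨s4, h4⟩ := exists_next s3
          obtain ⟨a, c, hc, g1, g2, g3, _⟩ := cover4 m u s1 s2 s3 s4 n2 n3 h4
          refine ⟨a, c, hc, ?_⟩
          simpa using ⟨g1, g2, g3⟩
        | cons h4 p4 =>
          obtain ⟨s4, rfl⟩ := (adj_iff hn _ _).mp h4
          cases p4 with
          | nil =>
            simp only [Walk.support_cons, Walk.support_nil, List.nodup_cons, List.mem_cons,
              not_or] at hp
            have n2 := nonback u s1 s2 (fun h => hp.1.2.1 h.symm)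
            have n3 := nonback _ s2 s3 (fun h => hp.2.1.2.1 h.symm)
            have n4 := nonback _ s3 s4 (fun h => hp.2.2.1.2.1 h.symm)
            obtain ⟨a, c, hc, g1, g2, g3, g4⟩ := cover4 m u s1 s2 s3 s4 n2 n3 n4
            refine ⟨a, c, hc, ?_⟩
            simpa using ⟨g1, g2, g3, g4⟩
          | cons h5 p5 =>
            simp only [Walk.length_cons] at hplen
            omega

end Pool.Agent.Lib.MP_b9f640_co
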