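import Mathlib

/-!
Hamiltonian extension number and the generalised Petersen graphs `GP(n, 2)`.
-/

namespace Pool.Agent.Lib.MP_b9f640_co

/-- The walk `p` lies on the closed walk `c`: every vertex and every edge of `p` belongs to `c`. -/
def LiesOn {V : Type} {G : SimpleGraph V} {u v a : V} (p : G.Walk u v) (c : G.Walk a a) : Prop :=
  (∀ x ∈ p.support, x ∈ c.support) ∧ ∀ e ∈ p.edges, e ∈ c.edges

/-- Every path of order `i` (that is, with `i` vertices), for each `i` with `1 ≤ i ≤ k`, lies on
some Hamiltonian cycle of `G`. -/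
def PathsExtend {V : Type} [DecidableEq V] (G : SimpleGraph V) (k : ℕ) : Prop :=
  ∀ i : ℕ, 1 ≤ i → i ≤ k → ∀ (u v : V) (p : G.Walk u v), p.IsPath → p.length + 1 = i →
    ∃ (a : V) (c : G.Walk a a), c.IsHamiltonianCycle ∧ LiesOn p c

/-- The Hamiltonian extension number of `G` is `h`: the largest `k` with `1 ≤ k ≤ n`, where `n` is
the order of `G`, such that all paths of order at most `k` lie on Hamiltonian cycles. -/
def HasExtensionNumber {V : Type} [DecidableEq V] [Fintype V] (G : SimpleGraph V) (h : ℕ) : Prop :=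
  IsGreatest {k : ℕ | 1 ≤ k ∧ k ≤ Fintype.card V ∧ PathsExtend G k} h

/-- The generalised Petersen graph `GP(n, 2)`: outer vertices `(false, i)`, inner vertices
`(true, i)`, with `i` modulo `n`; the outer vertices form the cycle `i ~ i + 1`, the spokes join
`(false, i)` and `(true, i)`, and the inner vertices are joined by `i ~ i + 2`. -/
def GP (n : ℕ) : SimpleGraph (Bool × ZMod n) :=
  SimpleGraph.fromRel (fun x y =>
    (x.1 = false ∧ y.1 = false ∧ y.2 = x.2 + 1) ∨
    (x.1 = false ∧ y.1 = true ∧ y.2 = x.2) ∨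
    (x.1 = true ∧ y.1 = true ∧ y.2 = x.2 + 2))

end Pool.Agent.Lib.MP_b9f640_co
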