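import Pool.Agent.Lib.MP_b9f640_co.FromList

/-!
Three families of Hamiltonian cycles of `GP(6m+10, 2)`.
-/

namespace Pool.Agent.Lib.MP_b9f640_co

open SimpleGraph

/-- extend the list `X` by `m` shifted copies of the block `r` -/
def ext (X r : List (Bool × ℤ)) : ℕ → List (Bool × ℤ)
  | 0 => X
  | m + 1 => ext X r m ++ r.map (sh (10 + 6 * (m : ℤ)))

lemma ext_length (X r : List (Bool × ℤ)) (m : ℕ) :
    (ext X r m).length = X.length + m * r.length := by
  induction m with
  | zero => simp [ext]
  | succ m ih => rw [ext, List.length_append, ih, List.length_map]; ring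

lemma prefix_ext (X r : List (Bool × ℤ)) (m : ℕ) : X <+: ext X r m := by
  induction m with
  | zero => exact List.prefix_rfl
  | succ m ih => exact ih.trans (List.prefix_append _ _)

lemma mem_ext_block (X r : List (Bool × ℤ)) (m k : ℕ) (hk : k < m) (y : Bool × ℤ) (hy : y ∈ r) :
    sh (10 + 6 * (k : ℤ)) y ∈ ext X r m := by
  induction m with
  | zero => omega
  | succ m ih =>
    rw [ext, List.mem_append]
    rcases Nat.lt_succ_iff_lt_or_eq.mp hk with h | h
    · exact Or.inl (ih h)
    · subst h
      exact Or.inr (List.mem_map_of_mem hy)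

lemma chain_sh {l : List (Bool × ℤ)} (c : ℤ) (h : l.IsChain RZ) : (l.map (sh c)).IsChain RZ := by
  rw [List.isChain_map]
  exact h.imp (fun _ _ hab => RZ_sh hab)

lemma sh_sh (c d : ℤ) (x : Bool × ℤ) : sh c (sh d x) = sh (d + c) x := by
  simp [sh, add_assoc]

lemma ext_chain {X r : List (Bool × ℤ)} (e f g : Bool × ℤ) (hX : X.IsChain RZ)
    (hr : r.IsChain RZ) (hXl : X.getLast? = some e) (hrh : r.head? = some f)
    (hrl : r.getLast? = some g) (h1 : RZ e (sh 10 f)) (h2 : sh 10 g = sh 6 e) (m : ℕ) :
    (ext X r m).IsChain RZ ∧ (ext X r m).getLast? = some (sh (6 * (m : ℤ)) e) := by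
  induction m with
  | zero =>
    refine ⟨hX, ?_⟩
    rw [ext, hXl]; simp [sh]
  | succ m ih =>
    constructor
    · rw [ext, List.isChain_append]
      refine ⟨ih.1, chain_sh _ hr, ?_⟩
      intro x hx y hy
      rw [ih.2] at hx
      rw [List.head?_map, hrh] at hy
      simp only [Option.mem_def, Option.some.injEq, Option.map_some] at hx hy
      subst hx hy
      have := RZ_sh (c := 6 * (m : ℤ)) h1
      rw [sh_sh] at this
      exact this
    · rw [ext, List.getLast?_append, List.getLast?_map, hrl]
      simp only [Option.map_some, Option.some_or, Option.some.injEq]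
      have e1 : sh (10 + 6 * (m : ℤ)) g = sh (6 * (m : ℤ)) (sh 10 g) := by rw [sh_sh]
      rw [e1, h2, sh_sh]
      congr 1
      push_cast
      ring

/-- the blocks -/
def pb : List (Bool × ℤ) := [(true, 1), (true, 3), (false, 3), (false, 2), (false, 1), (false, 0),
  (true, 0), (true, 2), (true, 4), (false, 4), (false, 5), (true, 5)]

def po : List (Bool × ℤ) := [(false, 0), (false, 1), (true, 1), (true, 3), (true, 5), (false, 5)]

def pa : List (Bool × ℤ) := [(true, 0), (true, 2), (false, 2), (false, 3), (false, 4), (true, 4)]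

/-- the bases -/
def X1 : List (Bool × ℤ) := [(true, 1), (true, 3), (false, 3), (false, 2), (false, 1), (false, 0),
  (true, 0), (true, 2), (true, 4), (false, 4), (false, 5), (true, 5), (true, 7), (false, 7),
  (false, 6), (true, 6), (true, 8), (false, 8), (false, 9), (true, 9)]

def X2 : List (Bool × ℤ) := [(true, 1), (true, 3), (true, 5), (true, 7), (false, 7), (false, 6),
  (false, 5), (false, 4), (false, 3), (false, 2), (false, 1), (false, 0), (true, 0), (true, 2),
  (true, 4), (true, 6), (true, 8), (false, 8), (false, 9), (true, 9)]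

def A3 : List (Bool × ℤ) := [(false, 0), (false, 1), (true, 1), (true, 3), (true, 5), (false, 5),
  (false, 6), (true, 6), (true, 4), (false, 4), (false, 3), (false, 2), (true, 2), (true, 0)]

def X3 : List (Bool × ℤ) := [(false, 7), (false, 8), (true, 8)]

def Y3 : List (Bool × ℤ) := [(true, 7), (true, 9), (false, 9)]

lemma block_full : ∀ (b : Bool) (i : ℕ), i < 6 → (b, (i : ℤ)) ∈ pb := by decide

lemma block_full' : ∀ (b : Bool) (i : ℕ), i < 6 → (b, (i : ℤ)) ∈ pa ∨ (b, (i : ℤ)) ∈ po := by
  decide

lemma base1_full : ∀ (b : Bool) (i : ℕ), i < 10 → (b, (i : ℤ)) ∈ X1 := by decide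

lemma base2_full : ∀ (b : Bool) (i : ℕ), i < 10 → (b, (i : ℤ)) ∈ X2 := by decide

lemma base3_full : ∀ (b : Bool) (i : ℕ), i < 10 →
    (b, (i : ℤ)) ∈ A3 ∨ (b, (i : ℤ)) ∈ X3 ∨ (b, (i : ℤ)) ∈ Y3 := by decide

lemma col_split (i m : ℕ) (h : i < 6 * m + 10) (h10 : 10 ≤ i) :
    ∃ k j : ℕ, k < m ∧ j < 6 ∧ i = j + (10 + 6 * k) :=
  ⟨(i - 10) / 6, (i - 10) % 6, by omega, by omega, by omega⟩

lemma wrap_cast (m : ℕ) (d : ℤ) :
    (((6 * (m : ℤ) + (10 - d) : ℤ)) : ZMod (6 * m + 10)) = -(d : ZMod (6 * m + 10)) := by
  have h : (((6 * m + 10 : ℕ) : ZMod (6 * m + 10))) = 0 := ZMod.natCast_self _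
  push_cast at h ⊢
  linear_combination h

/-- Hamiltonian cycles from a one-strand family -/
lemma family_one (X : List (Bool × ℤ)) (hX : X.IsChain RZ) (hXh : X.head? = some (true, 1))
    (hXl : X.getLast? = some (true, 9)) (hlen : X.length = 20)
    (hfull : ∀ (b : Bool) (i : ℕ), i < 10 → (b, (i : ℤ)) ∈ X) (m : ℕ) (a : ZMod (6 * m + 10)) :
    ∃ (v : Bool × ZMod (6 * m + 10)) (c : (GP (6 * m + 10)).Walk v v), c.IsHamiltonianCycle ∧
      ∀ x y, [x, y] <:+: X → s(psi _ a x, psi _ a y) ∈ c.edges := by
  obtain ⟨hch, hlast⟩ := ext_chain (X := X) (r := pb) (true, 9) (true, 1) (true, 5) hX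
    (by decide) hXl rfl rfl (by decide) (by decide) m
  obtain ⟨v, c, hc, hce⟩ := ham_of_stripList (n := 6 * m + 10) (by omega) (ext X pb m)
    (by rw [ext_length, hlen]; simp [pb]; ring)
    (by
      intro b i hi
      rcases Nat.lt_or_ge i 10 with h | h
      · exact (prefix_ext X pb m).subset (hfull b i h)
      · obtain ⟨k, j, hk, hj, rfl⟩ := col_split i m hi h
        have := mem_ext_block X pb m k hk _ (block_full b j hj)
        simpa [sh] using this)
    a
    (by
      rw [List.isChain_map]
      exact hch.imp (fun _ _ h => adj_of_RZ (by omega) a h))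
    (by
      intro x hx y hy
      rw [hlast] at hx
      have hh : (ext X pb m).head? = some (true, 1) := by
        obtain ⟨t, ht⟩ := prefix_ext X pb m
        rw [← ht, List.head?_append, hXh]; rfl
      rw [hh] at hy
      simp only [Option.mem_def, Option.some.injEq] at hx hy
      subst hx hy
      rw [adj_iff (by omega)]
      refine ⟨0, ?_⟩
      simp only [psi, sh, nb]
      have := wrap_cast m 1
      have e : (9 + 6 * (m : ℤ) : ℤ) = 6 * (m : ℤ) + (10 - 1) := by ring
      rw [e, this]
      congr 1
      push_cast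
      ring)
  refine ⟨v, c, hc, ?_⟩
  intro x y hxy
  exact hce x y (hxy.trans (prefix_ext X pb m).isInfix)

/-- Hamiltonian cycles from the two-strand family -/
lemma family_three (m : ℕ) (a : ZMod (6 * m + 10)) :
    ∃ (v : Bool × ZMod (6 * m + 10)) (c : (GP (6 * m + 10)).Walk v v), c.IsHamiltonianCycle ∧
      ∀ x y, ([x, y] <:+: A3 ∨ [x, y] <:+: X3.reverse ++ Y3) →
        s(psi _ a x, psi _ a y) ∈ c.edges := by
  obtain ⟨hchX, hlastX⟩ := ext_chain (X := X3) (r := pa) (true, 8) (true, 0) (true, 4) (by decide)
    (by decide) rfl rfl rfl (by decide) (by decide) m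
  obtain ⟨hchY, hlastY⟩ := ext_chain (X := Y3) (r := po) (false, 9) (false, 0) (false, 5)
    (by decide) (by decide) rfl rfl rfl (by decide) (by decide) m
  have hheadX : (ext X3 pa m).head? = some (false, 7) := by
    obtain ⟨t, ht⟩ := prefix_ext X3 pa m
    rw [← ht, List.head?_append]; rfl
  have hheadY : (ext Y3 po m).head? = some (true, 7) := by
    obtain ⟨t, ht⟩ := prefix_ext Y3 po m
    rw [← ht, List.head?_append]; rfl
  obtain ⟨v, c, hc, hce⟩ := ham_of_stripList (n := 6 * m + 10) (by omega)
    (A3 ++ ((ext X3 pa m).reverse ++ ext Y3 po m))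
    (by
      rw [List.length_append, List.length_append, List.length_reverse, ext_length, ext_length]
      simp [A3, X3, Y3, pa, po]; ring)
    (by
      intro b i hi
      rw [List.mem_append, List.mem_append, List.mem_reverse]
      rcases Nat.lt_or_ge i 10 with h | h
      · rcases base3_full b i h with h' | h' | h'
        · exact Or.inl h'
        · exact Or.inr (Or.inl ((prefix_ext X3 pa m).subset h'))
        · exact Or.inr (Or.inr ((prefix_ext Y3 po m).subset h'))
      · obtain ⟨k, j, hk, hj, rfl⟩ := col_split i m hi h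
        rcases block_full' b j hj with h' | h'
        · have := mem_ext_block X3 pa m k hk _ h'
          exact Or.inr (Or.inl (by simpa [sh] using this))
        · have := mem_ext_block Y3 po m k hk _ h'
          exact Or.inr (Or.inr (by simpa [sh] using this)))
    a
    (by
      rw [List.map_append, List.isChain_append]
      refine ⟨?_, ?_, ?_⟩
      · rw [List.isChain_map]
        have : A3.IsChain RZ := by decide
        exact this.imp (fun _ _ h => adj_of_RZ (by omega) a h)
      · rw [List.isChain_map]
        have h1 : ((ext X3 pa m).reverse ++ ext Y3 po m).IsChain RZ := by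
          rw [List.isChain_append]
          refine ⟨?_, hchY, ?_⟩
          · rw [List.isChain_reverse]
            exact hchX.imp (fun _ _ h => RZ_symm h)
          · intro x hx y hy
            rw [List.getLast?_reverse, hheadX] at hx
            rw [hheadY] at hy
            simp only [Option.mem_def, Option.some.injEq] at hx hy
            subst hx hy
            decide
        exact h1.imp (fun _ _ h => adj_of_RZ (by omega) a h)
      · intro x hx y hy
        rw [List.getLast?_map] at hx
        rw [List.head?_map, List.head?_append, List.head?_reverse, hlastX] at hy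
        have hA : A3.getLast? = some (true, 0) := rfl
        rw [hA] at hx
        simp only [Option.mem_def, Option.some.injEq, Option.map_some, Option.some_or] at hx hy
        subst hx hy
        rw [adj_iff (by omega)]
        refine ⟨1, ?_⟩
        simp only [psi, sh, nb]
        have := wrap_cast m 2
        have e : (8 + 6 * (m : ℤ) : ℤ) = 6 * (m : ℤ) + (10 - 2) := by ring
        rw [e, this]
        congr 1
        push_cast
        ring)
    (by
      intro x hx y hy
      rw [List.getLast?_append, List.getLast?_append, hlastY] at hx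
      have hA : (A3 ++ ((ext X3 pa m).reverse ++ ext Y3 po m)).head? = some (false, 0) := rfl
      rw [hA] at hy
      simp only [Option.mem_def, Option.some.injEq, Option.some_or] at hx hy
      subst hx hy
      rw [adj_iff (by omega)]
      refine ⟨0, ?_⟩
      simp only [psi, sh, nb]
      have := wrap_cast m 1
      have e : (9 + 6 * (m : ℤ) : ℤ) = 6 * (m : ℤ) + (10 - 1) := by ring
      rw [e, this]
      congr 1
      push_cast
      ring)
  refine ⟨v, c, hc, ?_⟩
  intro x y hxy
  apply hce x y
  rcases hxy with h | h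
  · exact h.trans (List.prefix_append _ _).isInfix
  · refine h.trans (List.IsInfix.trans ?_ (List.suffix_append _ _).isInfix)
    obtain ⟨t, ht⟩ := prefix_ext X3 pa m
    obtain ⟨u, hu⟩ := prefix_ext Y3 po m
    rw [← ht, ← hu]
    exact ⟨t.reverse, u, by simp⟩

end Pool.Agent.Lib.MP_b9f640_co
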