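import Pool.Agent.Lib.MP_b9f640_co.Cover

/-!
A path with six vertices that lies on no Hamiltonian cycle, and the conclusion.
-/

namespace Pool.Agent.Lib.MP_b9f640_co

open SimpleGraph

lemma deg_contra {V : Type} {G : SimpleGraph V} {a : V} {c : G.Walk a a} (hc : c.IsCycle)
    {x y1 y2 y3 : V} (e1 : s(x, y1) ∈ c.edges) (e2 : s(x, y2) ∈ c.edges) (e3 : s(x, y3) ∈ c.edges)
    (h12 : y1 ≠ y2) (h13 : y1 ≠ y3) (h23 : y2 ≠ y3) : False := by
  have hx : x ∈ c.support := Walk.fst_mem_support_of_mem_edges c e1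
  have h2 := hc.ncard_neighborSet_toSubgraph_eq_two hx
  have hfin : (c.toSubgraph.neighborSet x).Finite := Set.finite_of_ncard_ne_zero (by omega)
  have hsub : ({y1, y2, y3} : Set V) ⊆ c.toSubgraph.neighborSet x := by
    intro z hz
    simp only [Set.mem_insert_iff, Set.mem_singleton_iff] at hz
    rw [Subgraph.mem_neighborSet, ← Subgraph.mem_edgeSet, Walk.mem_edges_toSubgraph]
    rcases hz with rfl | rfl | rfl <;> assumption
  have h3 := Set.ncard_le_ncard hsub hfin
  have h4 : ({y1, y2, y3} : Set V).ncard = 3 := by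
    rw [Set.ncard_eq_three]
    exact ⟨y1, y2, y3, h12, h13, h23, rfl⟩
  omega

lemma ne10 {n : ℕ} (hn : 10 ≤ n) (x y : Bool × ℤ) (h : x ≠ y) (h1 : x.2 - y.2 < 10)
    (h2 : y.2 - x.2 < 10) : psi n 0 x ≠ psi n 0 y :=
  psi_ne h (by omega) (by omega)

theorem not_pathsExtend {n : ℕ} (hn : 10 ≤ n) {k : ℕ} (hk : 6 ≤ k) : ¬ PathsExtend (GP n) k := by
  intro h
  have hn5 : 5 ≤ n := by omega
  have a1 : (GP n).Adj (psi n 0 (false, 3)) (psi n 0 (false, 2)) := adj_of_RZ hn5 0 (by decide)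
  have a2 : (GP n).Adj (psi n 0 (false, 2)) (psi n 0 (true, 2)) := adj_of_RZ hn5 0 (by decide)
  have a3 : (GP n).Adj (psi n 0 (true, 2)) (psi n 0 (true, 0)) := adj_of_RZ hn5 0 (by decide)
  have a4 : (GP n).Adj (psi n 0 (true, 0)) (psi n 0 (false, 0)) := adj_of_RZ hn5 0 (by decide)
  have a5 : (GP n).Adj (psi n 0 (false, 0)) (psi n 0 (false, -1)) := adj_of_RZ hn5 0 (by decide)
  obtain ⟨a, c, hc, _, he⟩ := h 6 (by norm_num) hk _ _
    (Walk.cons a1 (Walk.cons a2 (Walk.cons a3 (Walk.cons a4 (Walk.cons a5 Walk.nil))))) (by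
      rw [Walk.isPath_def]
      simp only [Walk.support_cons, Walk.support_nil, List.nodup_cons, List.mem_cons,
        List.not_mem_nil, or_false, not_or, List.nodup_nil, and_true, not_false_eq_true]
      refine ⟨⟨?_, ?_, ?_, ?_, ?_⟩, ⟨?_, ?_, ?_, ?_⟩, ⟨?_, ?_, ?_⟩, ⟨?_, ?_⟩, ?_⟩ <;>
        exact ne10 hn _ _ (by decide) (by decide) (by decide)) rfl
  have hcy := hc.isCycle
  have e1 : s(psi n 0 (false, 3), psi n 0 (false, 2)) ∈ c.edges := he _ (by simp)
  have e2 : s(psi n 0 (false, 2), psi n 0 (true, 2)) ∈ c.edges := he _ (by simp)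
  have e4 : s(psi n 0 (true, 0), psi n 0 (false, 0)) ∈ c.edges := he _ (by simp)
  have e5 : s(psi n 0 (false, 0), psi n 0 (false, -1)) ∈ c.edges := he _ (by simp)
  have hw : psi n 0 (false, 1) ∈ c.support := hc.mem_support _
  have h2 := hcy.ncard_neighborSet_toSubgraph_eq_two hw
  have hsub : c.toSubgraph.neighborSet (psi n 0 (false, 1)) ⊆ {psi n 0 (true, 1)} := by
    intro z hz
    rw [Set.mem_singleton_iff]
    have hedge : s(psi n 0 (false, 1), z) ∈ c.edges := by
      rw [← Walk.mem_edges_toSubgraph]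
      exact hz
    have hadj : (GP n).Adj (psi n 0 (false, 1)) z := c.adj_of_mem_edges hedge
    rw [adj_iff hn5] at hadj
    obtain ⟨s, rfl⟩ := hadj
    rw [← psi_nb] at hedge ⊢
    fin_cases s
    · exfalso
      have e6 : s(psi n 0 (false, 2), psi n 0 (false, 1)) ∈ c.edges := by
        rw [Sym2.eq_swap]; exact hedge
      rw [Sym2.eq_swap] at e1
      exact deg_contra hcy e1 e2 e6 (ne10 hn _ _ (by decide) (by decide) (by decide))
        (ne10 hn _ _ (by decide) (by decide) (by decide))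
        (ne10 hn _ _ (by decide) (by decide) (by decide))
    · exfalso
      have e6 : s(psi n 0 (false, 0), psi n 0 (false, 1)) ∈ c.edges := by
        rw [Sym2.eq_swap]; exact hedge
      rw [Sym2.eq_swap] at e4
      exact deg_contra hcy e4 e5 e6 (ne10 hn _ _ (by decide) (by decide) (by decide))
        (ne10 hn _ _ (by decide) (by decide) (by decide))
        (ne10 hn _ _ (by decide) (by decide) (by decide))
    · rfl
  have h3 := Set.ncard_le_ncard hsub (Set.finite_singleton _)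
  rw [Set.ncard_singleton] at h3
  omega

lemma card_V (n : ℕ) [NeZero n] : Fintype.card (Bool × ZMod n) = 2 * n := by
  rw [Fintype.card_prod, ZMod.card, Fintype.card_bool]

theorem main (m : ℕ) : HasExtensionNumber (GP (6 * m + 10)) 5 := by
  refine ⟨⟨by norm_num, ?_, pathsExtend m⟩, ?_⟩
  · rw [card_V]; omega
  · rintro k ⟨_, _, hk⟩
    by_contra hcon
    exact not_pathsExtend (by omega) (by omega : 6 ≤ k) hk

theorem hamiltonian (m : ℕ) : (GP (6 * m + 10)).IsHamiltonian := by
  intro _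
  obtain ⟨v, c, hc, _⟩ := family m 0 0
  exact ⟨v, c, hc⟩

theorem not_iso (m m' : ℕ) (h : m ≠ m') : IsEmpty (GP (6 * m + 10) ≃g GP (6 * m' + 10)) := by
  constructor
  intro f
  have := Fintype.card_congr f.toEquiv
  rw [card_V, card_V] at this
  omega

end Pool.Agent.Lib.MP_b9f640_co
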