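import Pool.Agent.Lib.MP_b9f640_co.Strip

/-!
Hamiltonian cycles from cyclic lists of vertices, and from lists of strip vertices.
-/

namespace Pool.Agent.Lib.MP_b9f640_co

open SimpleGraph

lemma ham_of_list {V : Type} [DecidableEq V] [Fintype V] {G : SimpleGraph V} (l : List V)
    (h3 : 3 ≤ l.length) (hlen : l.length = Fintype.card V) (hall : ∀ v, v ∈ l)
    (hch : l.IsChain G.Adj) (hcl : ∀ x ∈ l.getLast?, ∀ y ∈ l.head?, G.Adj x y) :
    ∃ (a : V) (c : G.Walk a a), c.IsHamiltonianCycle ∧
      ∀ x y, [x, y] <:+: l → s(x, y) ∈ c.edges := by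
  have hne : l ≠ [] := by
    intro h; subst h; simp at h3
  have hnd : l.Nodup := by
    have h1 : (l : Multiset V).toFinset = Finset.univ := by
      ext v; simp [hall v]
    have h2 := (Multiset.toFinset_card_eq_card_iff_nodup (m := (l : Multiset V))).mp (by
      rw [h1, Finset.card_univ, Multiset.coe_card, hlen])
    simpa using h2
  set p := Walk.ofSupport l hne hch with hp
  have hsup : p.support = l := Walk.support_ofSupport hne hch
  have hplen : p.length = l.length - 1 := Walk.length_ofSupport hne hch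
  have hadj : G.Adj (l.getLast hne) (l.head hne) := by
    apply hcl
    · rw [List.getLast?_eq_getLast_of_ne_nil hne]; simp
    · rw [List.head?_eq_some_head hne]; simp
  have hpath : p.IsPath := by
    rw [Walk.isPath_def, hsup]; exact hnd
  refine ⟨l.getLast hne, Walk.cons hadj p, ?_, ?_⟩
  · rw [Walk.isHamiltonianCycle_iff_isCycle_and_length_eq]
    refine ⟨?_, ?_⟩
    · rw [Walk.cons_isCycle_iff]
      refine ⟨hpath, ?_⟩
      intro hmem
      rw [Sym2.eq_swap] at hmem
      have := hpath.length_eq_one_of_mem_edges hmem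
      omega
    · rw [Walk.length_cons, hplen, hlen]
      omega
  · intro x y hxy
    rw [Walk.edges_cons]
    apply List.mem_cons_of_mem
    have hxy' : G.Adj x y := by
      obtain ⟨s, t, hst⟩ := hxy
      rw [← hst] at hch
      have := hch.left_of_append.right_of_append
      simpa using this
    have := (Walk.mem_darts_iff_infix_support (p := p) hxy').mpr (by rw [hsup]; exact hxy)
    rw [Walk.edges, List.mem_map]
    exact ⟨_, this, rfl⟩

/-- a list of strip vertices that becomes a Hamiltonian cycle of `GP n` -/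
lemma ham_of_stripList {n : ℕ} [NeZero n] (hn : 5 ≤ n) (l : List (Bool × ℤ))
    (hlen : l.length = 2 * n)
    (hall : ∀ (b : Bool) (i : ℕ), i < n → (b, (i : ℤ)) ∈ l) (a : ZMod n)
    (hch : (l.map (psi n a)).IsChain (GP n).Adj)
    (hcl : ∀ x ∈ l.getLast?, ∀ y ∈ l.head?, (GP n).Adj (psi n a x) (psi n a y)) :
    ∃ (v : Bool × ZMod n) (c : (GP n).Walk v v), c.IsHamiltonianCycle ∧
      ∀ x y, [x, y] <:+: l → s(psi n a x, psi n a y) ∈ c.edges := by
  obtain ⟨v, c, hc, hce⟩ := ham_of_list (G := GP n) (l.map (psi n a))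
    (by rw [List.length_map, hlen]; omega)
    (by rw [List.length_map, hlen, Fintype.card_prod, ZMod.card, Fintype.card_bool])
    (by
      rintro ⟨b, z⟩
      rw [List.mem_map]
      refine ⟨(b, ((z - a).val : ℤ)), hall b _ (ZMod.val_lt _), ?_⟩
      simp [psi])
    hch (by
      intro x hx y hy
      rw [List.getLast?_map] at hx
      rw [List.head?_map] at hy
      simp only [Option.mem_def, Option.map_eq_some_iff] at hx hy
      obtain ⟨x', hx', rfl⟩ := hx
      obtain ⟨y', hy', rfl⟩ := hy
      exact hcl x' hx' y' hy')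
  refine ⟨v, c, hc, ?_⟩
  intro x y hxy
  apply hce
  exact hxy.map (psi n a)

end Pool.Agent.Lib.MP_b9f640_co
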