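import Pool.Agent.Lib.MP_b9f640_co.Defs

/-!
The strip (the universal cover of `GP(n, 2)` along the rotation) and its projection.
-/

namespace Pool.Agent.Lib.MP_b9f640_co

open SimpleGraph

/-- the three neighbours in the strip -/
def nbZ (x : Bool × ℤ) (s : Fin 3) : Bool × ℤ :=
  match x.1, s with
  | false, 0 => (false, x.2 + 1)
  | false, 1 => (false, x.2 - 1)
  | false, 2 => (true, x.2)
  | true, 0 => (true, x.2 + 2)
  | true, 1 => (true, x.2 - 2)
  | true, 2 => (false, x.2)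

/-- the three neighbours in `GP n` -/
def nb {n : ℕ} (x : Bool × ZMod n) (s : Fin 3) : Bool × ZMod n :=
  match x.1, s with
  | false, 0 => (false, x.2 + 1)
  | false, 1 => (false, x.2 - 1)
  | false, 2 => (true, x.2)
  | true, 0 => (true, x.2 + 2)
  | true, 1 => (true, x.2 - 2)
  | true, 2 => (false, x.2)

/-- projection followed by a rotation -/
def psi (n : ℕ) (a : ZMod n) (x : Bool × ℤ) : Bool × ZMod n := (x.1, (x.2 : ZMod n) + a)

lemma psi_nb (n : ℕ) (a : ZMod n) (x : Bool × ℤ) (s : Fin 3) :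
    psi n a (nbZ x s) = nb (psi n a x) s := by
  obtain ⟨b, i⟩ := x
  cases b <;> fin_cases s <;> simp [psi, nbZ, nb] <;> ring

/-- adjacency in the strip -/
def RZ (x y : Bool × ℤ) : Prop := y = nbZ x 0 ∨ y = nbZ x 1 ∨ y = nbZ x 2

instance : DecidableRel RZ := fun x y => by unfold RZ; infer_instance

lemma RZ_symm {x y : Bool × ℤ} (h : RZ x y) : RZ y x := by
  obtain ⟨b, i⟩ := x
  rcases h with h | h | h <;> subst h <;> cases b <;> simp [RZ, nbZ]

/-- shift of the columns -/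
def sh (c : ℤ) (x : Bool × ℤ) : Bool × ℤ := (x.1, x.2 + c)

lemma sh_nb (c : ℤ) (x : Bool × ℤ) (s : Fin 3) : sh c (nbZ x s) = nbZ (sh c x) s := by
  obtain ⟨b, i⟩ := x
  cases b <;> fin_cases s <;> simp [sh, nbZ] <;> ring

lemma RZ_sh {c : ℤ} {x y : Bool × ℤ} (h : RZ x y) : RZ (sh c x) (sh c y) := by
  unfold RZ at h ⊢
  rcases h with h | h | h
  · left; rw [h, sh_nb]
  · right; left; rw [h, sh_nb]
  · right; right; rw [h, sh_nb]

lemma intCast_ne {n : ℕ} {i j : ℤ} (h : i ≠ j) (h1 : i - j < n) (h2 : j - i < n) :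
    (i : ZMod n) ≠ (j : ZMod n) := by
  intro he
  have := (ZMod.intCast_eq_intCast_iff_dvd_sub i j n).mp he
  obtain ⟨k, hk⟩ := this
  have hn : (0 : ℤ) ≤ n := by positivity
  rcases lt_trichotomy k 0 with hk0 | hk0 | hk0
  · have : (n : ℤ) * k ≤ -n := by nlinarith
    omega
  · subst hk0; apply h; omega
  · have : (n : ℤ) ≤ n * k := by nlinarith
    omega

lemma psi_ne {n : ℕ} {a : ZMod n} {x y : Bool × ℤ} (h : x ≠ y) (h1 : x.2 - y.2 < n)
    (h2 : y.2 - x.2 < n) : psi n a x ≠ psi n a y := by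
  obtain ⟨b, i⟩ := x
  obtain ⟨b', j⟩ := y
  intro he
  simp only [psi, Prod.mk.injEq, add_left_inj] at he
  obtain ⟨rfl, he⟩ := he
  have hij : i ≠ j := fun e => h (by rw [e])
  exact intCast_ne hij h1 h2 he

lemma exists_psi {n : ℕ} (a : ZMod n) (x : Bool × ZMod n) (c : ℤ) :
    x = psi n (x.2 - c) (x.1, c) := by
  simp [psi]

lemma adj_nb {n : ℕ} (hn : 5 ≤ n) (x : Bool × ZMod n) (s : Fin 3) : (GP n).Adj x (nb x s) := by
  rw [exists_psi 0 x 5, ← psi_nb]
  set a := x.2 - ((5 : ℤ) : ZMod n)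
  obtain ⟨b, z⟩ := x
  have hne : psi n a (b, 5) ≠ psi n a (nbZ (b, 5) s) := by
    apply psi_ne
    · cases b <;> fin_cases s <;> simp [nbZ]
    · cases b <;> fin_cases s <;> simp [nbZ] <;> omega
    · cases b <;> fin_cases s <;> simp [nbZ] <;> omega
  rw [GP, fromRel_adj]
  refine ⟨hne, ?_⟩
  rw [psi_nb]
  generalize psi n a (b, 5) = y
  obtain ⟨b', w⟩ := y
  cases b' <;> fin_cases s <;> simp [nb]

lemma adj_iff {n : ℕ} (hn : 5 ≤ n) (x y : Bool × ZMod n) :
    (GP n).Adj x y ↔ ∃ s, y = nb x s := by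
  constructor
  · intro h
    rw [GP, fromRel_adj] at h
    obtain ⟨b, i⟩ := x
    obtain ⟨b', j⟩ := y
    obtain ⟨_, h | h⟩ := h
    · simp only at h
      rcases h with ⟨rfl, rfl, rfl⟩ | ⟨rfl, rfl, rfl⟩ | ⟨rfl, rfl, rfl⟩
      · exact ⟨0, rfl⟩
      · exact ⟨2, rfl⟩
      · exact ⟨0, rfl⟩
    · simp only at h
      rcases h with ⟨rfl, rfl, rfl⟩ | ⟨rfl, rfl, rfl⟩ | ⟨rfl, rfl, rfl⟩
      · exact ⟨1, by simp [nb]⟩
      · exact ⟨2, rfl⟩
      · exact ⟨1, by simp [nb]⟩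
  · rintro ⟨s, rfl⟩
    exact adj_nb hn x s

lemma adj_of_RZ {n : ℕ} (hn : 5 ≤ n) (a : ZMod n) {x y : Bool × ℤ} (h : RZ x y) :
    (GP n).Adj (psi n a x) (psi n a y) := by
  rw [adj_iff hn]
  rcases h with h | h | h
  · exact ⟨0, by rw [h, psi_nb]⟩
  · exact ⟨1, by rw [h, psi_nb]⟩
  · exact ⟨2, by rw [h, psi_nb]⟩

/-- the three neighbours are distinct -/
lemma nb_injective {n : ℕ} (hn : 5 ≤ n) (x : Bool × ZMod n) : Function.Injective (nb x) := by
  intro s t h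
  by_contra hst
  rw [exists_psi 0 x 5, ← psi_nb, ← psi_nb] at h
  refine psi_ne ?_ ?_ ?_ h
  · obtain ⟨b, z⟩ := x
    cases b <;> fin_cases s <;> fin_cases t <;> simp [nbZ] at hst ⊢
  · obtain ⟨b, z⟩ := x
    cases b <;> fin_cases s <;> fin_cases t <;> simp [nbZ] <;> omega
  · obtain ⟨b, z⟩ := x
    cases b <;> fin_cases s <;> fin_cases t <;> simp [nbZ] <;> omega

lemma cubic {n : ℕ} (hn : 5 ≤ n) (x : Bool × ZMod n) : ((GP n).neighborSet x).ncard = 3 := by
  have : (GP n).neighborSet x = Set.range (nb x) := by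
    ext y
    rw [mem_neighborSet, adj_iff hn, Set.mem_range]
    constructor
    · rintro ⟨s, h⟩; exact ⟨s, h.symm⟩
    · rintro ⟨s, h⟩; exact ⟨s, h.symm⟩
  rw [this, ← Set.image_univ, Set.ncard_image_of_injective _ (nb_injective hn x), Set.ncard_univ]
  simp

end Pool.Agent.Lib.MP_b9f640_co
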